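import Pool.Agent.Helper58.FL2.Comb
import Pool.Agent.Helper45.FL.Triv

/-!
# Project FL2, module C2 (KGOOD): `Kf T X` is vertex-fibrant and satisfies the Segal condition

Everything relative to the results `Dep X` of the modules G1, G3, G4.
-/

open CategoryTheory MonoidalCategory Opposite

set_option autoImplicit false

namespace Pool.Agent.Helper86.FL2

open _root_.FL

/-- The results of the modules G1, G3, G4 which are used here. -/
structure Dep {A : Type} [SmallCategory A] (X : SP A) : Prop where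
  locT_trans : ∀ {P : SP A} {S T U : Sb P}, LocT X S T → LocT X T U → LocT X S U
  locT_push : ∀ {P : SP A} {S T : Sb P}, LocT X (S ⊓ T) T → LocT X S (S ⊔ T)
  locT_comap : ∀ {P Q : SP A} (f : P ⟶ Q) (_ : ∀ a, Mono (f.app a)) (S T : Sb Q)
    (_ : S ≤ T) (_ : T ≤ Sb.range f), LocT X (S.comap f) (T.comap f) ↔ LocT X S T
  loc_iff_range : ∀ {P Q : SP A} (f : P ⟶ Q) (_ : ∀ a, Mono (f.app a)),
    Loc X f ↔ LocT X (Sb.range f) ⊤
  Yc_kan : ∀ {F : SimplexCategory ⥤ SP A} (_ : Ext X F), SSet.KanComplex (Yc F X)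
  Yc_pre_kanFib : ∀ {F G : SimplexCategory ⥤ SP A} (u : F ⟶ G)
    (_ : ∀ m a, Mono ((u.app m).app a)) (_ : Ext X F) (_ : Ext X G)
    (_ : ∀ i : Fin 2, HasLiftingProperty (SSet.horn.{0} 1 i).ι (Yc.pre u X)),
    KanFib (Yc.pre u X)
  Yc_pre_trivFib : ∀ {F G : SimplexCategory ⥤ SP A} (u : F ⟶ G)
    (_ : ∀ m a, Mono ((u.app m).app a)) (_ : ∀ m, Loc X (u.app m)), TrivFib (Yc.pre u X)

section Elem

lemma inj_of_mono {K L : SSet.{0}} (f : K ⟶ L) (h : Mono f) (k : SimplexCategoryᵒᵖ) :
    Function.Injective (f.app k) := by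
  have : Mono (f.app k) := inferInstance
  exact (CategoryTheory.mono_iff_injective _).1 this

lemma mono_of_inj {K L : SSet.{0}} (f : K ⟶ L)
    (h : ∀ k, Function.Injective (f.app k)) : Mono f := by
  have : ∀ k, Mono (f.app k) := fun k => (CategoryTheory.mono_iff_injective _).2 (h k)
  exact NatTrans.mono_of_mono_app f

lemma isIso_of_bij {K L : SSet.{0}} (f : K ⟶ L)
    (h : ∀ k, Function.Bijective (f.app k)) : IsIso f := by
  have : ∀ k, IsIso (f.app k) := fun k => (CategoryTheory.isIso_iff_bijective _).2 (h k)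
  exact NatIso.isIso_of_isIso_app f

end Elem


section Glue

variable {A : Type} [SmallCategory A]

open Classical in
/-- Gluing of maps defined on the two images. -/
noncomputable def glue {P Q F X : SP A} (u : P ⟶ F) (v : Q ⟶ F) {m : SimplexCategory}
    (φ : MpS P X m) (ψ : MpS Q X m)
    (hu : ∀ a k, Function.Injective ((u.app a).app k))
    (hv : ∀ a k, Function.Injective ((v.app a).app k))
    (h : ∀ a k (s : k.unop ⟶ m) (x : (P.obj a).obj k) (y : (Q.obj a).obj k),
      (u.app a).app k x = (v.app a).app k y → φ.app a k s x = ψ.app a k s y) :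
    { χ : MpS (Sb.range u ⊔ Sb.range v).toSP X m //
      (∀ a k s x, χ.app a k s ⟨(u.app a).app k x, Or.inl ⟨x, rfl⟩⟩ = φ.app a k s x) ∧
      ∀ a k s y, χ.app a k s ⟨(v.app a).app k y, Or.inr ⟨y, rfl⟩⟩ = ψ.app a k s y } := by
  let g : ∀ (a : Aᵒᵖ) (k : SimplexCategoryᵒᵖ) (s : k.unop ⟶ m)
      (z : ((Sb.range u ⊔ Sb.range v).toSP.obj a).obj k), (X.obj a).obj k := fun a k s z =>
    if hz : ∃ x, (u.app a).app k x = z.1 then φ.app a k s hz.choose
    else ψ.app a k s (z.2.resolve_left hz).choose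
  have gu : ∀ a k s x (hx), g a k s ⟨(u.app a).app k x, hx⟩ = φ.app a k s x := by
    intro a k s x hx
    have hz : ∃ x', (u.app a).app k x' = (u.app a).app k x := ⟨x, rfl⟩
    refine (dif_pos hz).trans ?_
    exact congrArg (φ.app a k s) (hu a k hz.choose_spec)
  have gv : ∀ a k s y (hy), g a k s ⟨(v.app a).app k y, hy⟩ = ψ.app a k s y := by
    intro a k s y hy
    by_cases hz : ∃ x', (u.app a).app k x' = (v.app a).app k y
    · refine (dif_pos hz).trans ?_
      exact h a k s _ _ hz.choose_spec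
    · refine (dif_neg hz).trans ?_
      exact congrArg (ψ.app a k s) (hv a k (hy.resolve_left hz).choose_spec)
  refine ⟨{ app := g, nat_left := ?_, nat_right := ?_ }, fun a k s x => gu a k s x _,
    fun a k s y => gv a k s y _⟩
  · rintro a b f k s ⟨z, (⟨x, rfl⟩ | ⟨y, rfl⟩)⟩
    · have e : ((Sb.range u ⊔ Sb.range v).toSP.map f).app k ⟨(u.app a).app k x, Or.inl ⟨x, rfl⟩⟩ =
        ⟨(u.app b).app k ((P.map f).app k x), Or.inl ⟨_, rfl⟩⟩ := Subtype.ext (hom_nat u f x).symm
      rw [e, gu, gu, φ.nat_left]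
    · have e : ((Sb.range u ⊔ Sb.range v).toSP.map f).app k ⟨(v.app a).app k y, Or.inr ⟨y, rfl⟩⟩ =
        ⟨(v.app b).app k ((Q.map f).app k y), Or.inr ⟨_, rfl⟩⟩ := Subtype.ext (hom_nat v f y).symm
      rw [e, gv, gv, ψ.nat_left]
  · rintro a k l α s ⟨z, (⟨x, rfl⟩ | ⟨y, rfl⟩)⟩
    · have e : ((Sb.range u ⊔ Sb.range v).toSP.obj a).map α ⟨(u.app a).app k x, Or.inl ⟨x, rfl⟩⟩ =
        ⟨(u.app a).app l ((P.obj a).map α x), Or.inl ⟨_, rfl⟩⟩ := Subtype.ext (hom_natk u α x).symm
      rw [e, gu, gu, φ.nat_right]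
    · have e : ((Sb.range u ⊔ Sb.range v).toSP.obj a).map α ⟨(v.app a).app k y, Or.inr ⟨y, rfl⟩⟩ =
        ⟨(v.app a).app l ((Q.obj a).map α y), Or.inr ⟨_, rfl⟩⟩ := Subtype.ext (hom_natk v α y).symm
      rw [e, gv, gv, ψ.nat_right]

lemma glue_ext {P Q F X : SP A} (u : P ⟶ F) (v : Q ⟶ F) {m : SimplexCategory}
    {χ χ' : MpS (Sb.range u ⊔ Sb.range v).toSP X m}
    (h1 : ∀ a k s x, χ.app a k s ⟨(u.app a).app k x, Or.inl ⟨x, rfl⟩⟩ =
      χ'.app a k s ⟨(u.app a).app k x, Or.inl ⟨x, rfl⟩⟩)
    (h2 : ∀ a k s y, χ.app a k s ⟨(v.app a).app k y, Or.inr ⟨y, rfl⟩⟩ =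
      χ'.app a k s ⟨(v.app a).app k y, Or.inr ⟨y, rfl⟩⟩) : χ = χ' := by
  refine MpS.ext ?_
  funext a k s z
  obtain ⟨z, (⟨x, rfl⟩ | ⟨y, rfl⟩)⟩ := z
  · exact h1 a k s x
  · exact h2 a k s y

end Glue

section RU

variable {A : Type} [SmallCategory A]

/-- The union of the images of two maps of cosimplicial objects. -/
def RU {P Q F : SimplexCategory ⥤ SP A} (u : P ⟶ F) (v : Q ⟶ F) : SimplexCategory ⥤ SP A where
  obj m := (Sb.range (u.app m) ⊔ Sb.range (v.app m)).toSP
  map {m n} α := Sb.restr (F.map α) _ _ (by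
    rintro a k z (⟨x, rfl⟩ | ⟨y, rfl⟩)
    · exact Or.inl ⟨((P.map α).app a).app k x, (ConcreteCategory.congr_hom (NatTrans.congr_app
        (NatTrans.congr_app (u.naturality α) a) k) x)⟩
    · exact Or.inr ⟨((Q.map α).app a).app k y, (ConcreteCategory.congr_hom (NatTrans.congr_app
        (NatTrans.congr_app (v.naturality α) a) k) y)⟩)
  map_id m := by
    refine NatTrans.ext (funext fun a => NatTrans.ext (funext fun k => ?_))
    refine ConcreteCategory.hom_ext _ _ fun x => ?_
    exact Subtype.ext (cos_id F x.1)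
  map_comp α β := by
    refine NatTrans.ext (funext fun a => NatTrans.ext (funext fun k => ?_))
    refine ConcreteCategory.hom_ext _ _ fun x => ?_
    exact Subtype.ext (cos_comp F α β x.1)

variable {P Q F : SimplexCategory ⥤ SP A} (u : P ⟶ F) (v : Q ⟶ F)

lemma cos_nat {F G : SimplexCategory ⥤ SP A} (u : F ⟶ G) {m n : SimplexCategory} (α : m ⟶ n)
    {a : Aᵒᵖ} {k : SimplexCategoryᵒᵖ} (x : ((F.obj m).obj a).obj k) :
    ((u.app n).app a).app k (((F.map α).app a).app k x) =
      ((G.map α).app a).app k (((u.app m).app a).app k x) :=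
  ConcreteCategory.congr_hom (NatTrans.congr_app (NatTrans.congr_app (u.naturality α) a) k) x

/-- The inclusion. -/
def RU.ι : RU u v ⟶ F where
  app m := Sb.ι _
  naturality m n α := rfl

/-- The factorisation of `u`. -/
def RU.left : P ⟶ RU u v where
  app m :=
    { app := fun a =>
        { app := fun k => ↾ fun x => ⟨((u.app m).app a).app k x, Or.inl ⟨x, rfl⟩⟩
          naturality := fun k l α => by
            refine ConcreteCategory.hom_ext _ _ fun x => ?_
            exact Subtype.ext (hom_natk (u.app m) α x) }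
      naturality := fun a b f => by
        refine NatTrans.ext (funext fun k => ?_)
        refine ConcreteCategory.hom_ext _ _ fun x => ?_
        exact Subtype.ext (hom_nat (u.app m) f x) }
  naturality m n α := by
    refine NatTrans.ext (funext fun a => NatTrans.ext (funext fun k => ?_))
    refine ConcreteCategory.hom_ext _ _ fun x => ?_
    exact Subtype.ext (cos_nat u α x)

/-- The factorisation of `v`. -/
def RU.right : Q ⟶ RU u v where
  app m :=
    { app := fun a =>
        { app := fun k => ↾ fun x => ⟨((v.app m).app a).app k x, Or.inr ⟨x, rfl⟩⟩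
          naturality := fun k l α => by
            refine ConcreteCategory.hom_ext _ _ fun x => ?_
            exact Subtype.ext (hom_natk (v.app m) α x) }
      naturality := fun a b f => by
        refine NatTrans.ext (funext fun k => ?_)
        refine ConcreteCategory.hom_ext _ _ fun x => ?_
        exact Subtype.ext (hom_nat (v.app m) f x) }
  naturality m n α := by
    refine NatTrans.ext (funext fun a => NatTrans.ext (funext fun k => ?_))
    refine ConcreteCategory.hom_ext _ _ fun x => ?_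
    exact Subtype.ext (cos_nat v α x)

lemma RU.ι_mono (m : SimplexCategory) (a : Aᵒᵖ) : Mono (((RU.ι u v).app m).app a) :=
  mono_of_inj _ fun _ _ _ h => Subtype.ext h

lemma RU.left_mono (hu : ∀ m a, Mono ((u.app m).app a)) (m : SimplexCategory) (a : Aᵒᵖ) :
    Mono (((RU.left u v).app m).app a) :=
  mono_of_inj _ fun k _ _ h => inj_of_mono _ (hu m a) k (congrArg Subtype.val h)

lemma RU.right_mono (hv : ∀ m a, Mono ((v.app m).app a)) (m : SimplexCategory) (a : Aᵒᵖ) :
    Mono (((RU.right u v).app m).app a) :=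
  mono_of_inj _ fun k _ _ h => inj_of_mono _ (hv m a) k (congrArg Subtype.val h)

lemma RU.range_ι (m : SimplexCategory) :
    Sb.range ((RU.ι u v).app m) = Sb.range (u.app m) ⊔ Sb.range (v.app m) := by
  refine Sb.ext ?_
  funext a k
  refine Set.ext fun z => ?_
  constructor
  · rintro ⟨y, rfl⟩
    exact y.2
  · intro h
    exact ⟨⟨z, h⟩, rfl⟩

end RU


section Image

variable {A : Type} [SmallCategory A] {X : SP A}

/-- The image of a sub-presheaf. -/
def im {P Q : SP A} (f : P ⟶ Q) (S : Sb P) : Sb Q where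
  mem a k := (f.app a).app k '' S.mem a k
  mapA := by
    rintro a b g k _ ⟨y, hy, rfl⟩
    exact ⟨(P.map g).app k y, S.mapA g k y hy, hom_nat f g y⟩
  mapk := by
    rintro a k l α _ ⟨y, hy, rfl⟩
    exact ⟨(P.obj a).map α y, S.mapk a α y hy, hom_natk f α y⟩

lemma comap_im {P Q : SP A} (f : P ⟶ Q) (hf : ∀ a, Mono (f.app a)) (S : Sb P) :
    (im f S).comap f = S := by
  refine Sb.ext ?_
  funext a k
  refine Set.ext fun z => ?_
  constructor
  · rintro ⟨y, hy, e⟩
    exact inj_of_mono _ (hf a) k e ▸ hy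
  · intro h
    exact ⟨z, h, rfl⟩

lemma im_le_range {P Q : SP A} (f : P ⟶ Q) (S : Sb P) : im f S ≤ Sb.range f := by
  rintro a k _ ⟨y, _, rfl⟩
  exact ⟨y, rfl⟩

lemma im_mono {P Q : SP A} (f : P ⟶ Q) {S T : Sb P} (h : S ≤ T) : im f S ≤ im f T := by
  rintro a k _ ⟨y, hy, rfl⟩
  exact ⟨y, h a k hy, rfl⟩

lemma im_sup {P Q : SP A} (f : P ⟶ Q) (S T : Sb P) : im f (S ⊔ T) = im f S ⊔ im f T := by
  refine Sb.ext ?_
  funext a k
  exact Set.image_union _ _ _

lemma locT_im (D : Dep X) {P Q : SP A} (f : P ⟶ Q) (hf : ∀ a, Mono (f.app a)) {S T : Sb P}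
    (h : LocT X S T) : LocT X (im f S) (im f T) := by
  refine (D.locT_comap f hf _ _ (im_mono f h.1) (im_le_range f T)).1 ?_
  rw [comap_im f hf, comap_im f hf]
  exact h

/-- Locality of unions of disjoint images. -/
lemma locT_two (D : Dep X) {P Q F : SP A} (u : P ⟶ F) (v : Q ⟶ F)
    (hu : ∀ a, Mono (u.app a)) (hv : ∀ a, Mono (v.app a))
    (hd : Sb.range u ⊓ Sb.range v = ⊥) {S T : Sb P} {S' T' : Sb Q}
    (h : LocT X S T) (h' : LocT X S' T') :
    LocT X (im u S ⊔ im v S') (im u T ⊔ im v T') := by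
  have hd1 : ∀ (U : Sb P) (V : Sb Q), im u U ⊓ im v V = ⊥ := fun U V =>
    le_bot_iff.1 ((inf_le_inf (im_le_range u U) (im_le_range v V)).trans hd.le)
  have e1 : (im u S ⊔ im v S') ⊓ im u T = im u S := by
    rw [inf_sup_right, inf_eq_left.2 (im_mono u h.1), inf_comm (im v S'), hd1, sup_bot_eq]
  have e2 : (im u S ⊔ im v S') ⊔ im u T = im u T ⊔ im v S' := by
    rw [sup_right_comm, sup_eq_right.2 (im_mono u h.1)]
  have e3 : (im u T ⊔ im v S') ⊓ im v T' = im v S' := by
    rw [inf_sup_right, hd1, bot_sup_eq, inf_eq_left.2 (im_mono v h'.1)]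
  have e4 : (im u T ⊔ im v S') ⊔ im v T' = im u T ⊔ im v T' := by
    rw [sup_assoc, sup_eq_right.2 (im_mono v h'.1)]
  have l1 : LocT X (im u S ⊔ im v S') ((im u S ⊔ im v S') ⊔ im u T) :=
    D.locT_push (by rw [e1]; exact locT_im D u hu h)
  have l2 : LocT X (im u T ⊔ im v S') ((im u T ⊔ im v S') ⊔ im v T') :=
    D.locT_push (by rw [e3]; exact locT_im D v hv h')
  rw [e2] at l1
  rw [e4] at l2
  exact D.locT_trans l1 l2

variable {P Q F : SimplexCategory ⥤ SP A} (u : P ⟶ F) (v : Q ⟶ F)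

lemma fface_RU {N : SimplexCategory} (U : Finset (Fin (N.len + 1))) :
    fface (RU u v) U = im ((RU.left u v).app N) (fface P U) ⊔
      im ((RU.right u v).app N) (fface Q U) := by
  refine Sb.ext ?_
  funext a k
  refine Set.ext fun z => ?_
  constructor
  · rintro ⟨m, α, ⟨y, (⟨x, rfl⟩ | ⟨x, rfl⟩)⟩, hα, rfl⟩
    · refine Or.inl ⟨((P.map α).app a).app k x, ⟨m, α, x, hα, rfl⟩, ?_⟩
      exact Subtype.ext (cos_nat u α x)
    · refine Or.inr ⟨((Q.map α).app a).app k x, ⟨m, α, x, hα, rfl⟩, ?_⟩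
      exact Subtype.ext (cos_nat v α x)
  · rintro (⟨_, ⟨m, α, x, hα, rfl⟩, rfl⟩ | ⟨_, ⟨m, α, x, hα, rfl⟩, rfl⟩)
    · refine ⟨m, α, (((RU.left u v).app m).app a).app k x, hα, ?_⟩
      exact Subtype.ext (cos_nat u α x).symm
    · refine ⟨m, α, (((RU.right u v).app m).app a).app k x, hα, ?_⟩
      exact Subtype.ext (cos_nat v α x).symm

lemma ext_RU (D : Dep X) (hu : ∀ m a, Mono ((u.app m).app a))
    (hv : ∀ m a, Mono ((v.app m).app a))
    (hd : ∀ m, Sb.range (u.app m) ⊓ Sb.range (v.app m) = ⊥) (hP : Ext X P) (hQ : Ext X Q) :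
    Ext X (RU u v) := by
  intro N S S' i hi
  have hd' : Sb.range ((RU.left u v).app N) ⊓ Sb.range ((RU.right u v).app N) = ⊥ := by
    refine le_bot_iff.1 ?_
    rintro a k z ⟨⟨x, rfl⟩, ⟨y, hy⟩⟩
    have : (((u.app N).app a).app k x) ∈
        (Sb.range (u.app N) ⊓ Sb.range (v.app N)).mem a k :=
      ⟨⟨x, rfl⟩, ⟨y, congrArg Subtype.val hy⟩⟩
    rw [hd N] at this
    exact this
  have := locT_two D ((RU.left u v).app N) ((RU.right u v).app N) (RU.left_mono u v hu N)
    (RU.right_mono u v hv N) hd' (hP N S S' i hi) (hQ N S S' i hi)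
  rw [im_sup, im_sup] at this
  rw [fface_RU, fface_RU, fface_RU]
  rwa [sup_sup_sup_comm]

end Image

section Cmp

variable {A : Type} [SmallCategory A] {X : SP A}

/-- Elements of `Yc F X`. -/
lemma pre_app {F G : SimplexCategory ⥤ SP A} (u : F ⟶ G) (m : SimplexCategoryᵒᵖ)
    (φ : (Yc G X).obj m) (a : Aᵒᵖ) (k : SimplexCategoryᵒᵖ) (s : k.unop ⟶ m.unop)
    (x : ((F.obj m.unop).obj a).obj k) :
    MpS.app ((Yc.pre u X).app m φ) a k s x =
      MpS.app φ a k s (((u.app m.unop).app a).app k x) := rfl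

end Cmp

section Main

variable {C : Type} [SmallCategory C] {X : SP (Wr C)}

lemma lift_iso_right {E B B' K L : SSet.{0}} {i : K ⟶ L} {p : E ⟶ B} (e : B ⟶ B') [IsIso e]
    (h : HasLiftingProperty i p) : HasLiftingProperty i (p ≫ e) := inferInstance

lemma lift_of_iso_right {E B B' K L : SSet.{0}} {i : K ⟶ L} {p : E ⟶ B} (e : B ⟶ B') [IsIso e]
    (h : HasLiftingProperty i (p ≫ e)) : HasLiftingProperty i p := by
  have : HasLiftingProperty i ((p ≫ e) ≫ inv e) := inferInstance
  rwa [Category.assoc, IsIso.hom_inv_id, Category.comp_id] at this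

section Ends

variable (T : Fr (Wr C)) (c : C)

/-- The restriction to the two vertices. -/
noncomputable def endsCmp (X : SP (Wr C)) :
    Yc (RU (T.map (vtx (seg c) 0)) (T.map (vtx (seg c) 1))) X ⟶
      (Kf T X).obj (op Wr.pt) ⊗ (Kf T X).obj (op Wr.pt) :=
  CartesianMonoidalCategory.lift (Yc.pre (RU.left _ _) X) (Yc.pre (RU.right _ _) X)

/-- The restriction along the inclusion of the two vertices. -/
noncomputable def endsPre (X : SP (Wr C)) : (Kf T X).obj (op (seg c)) ⟶
    Yc (RU (T.map (vtx (seg c) 0)) (T.map (vtx (seg c) 1))) X :=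
  Yc.pre (RU.ι (T.map (vtx (seg c) 0)) (T.map (vtx (seg c) 1))) X

lemma ends_eq (X : SP (Wr C)) : ends (Kf T X) c = endsPre T c X ≫ endsCmp T c X := by
  refine CartesianMonoidalCategory.hom_ext _ _ ?_ ?_
  · rw [Category.assoc, endsCmp, ends, CartesianMonoidalCategory.lift_fst,
      CartesianMonoidalCategory.lift_fst]
    rfl
  · rw [Category.assoc, endsCmp, ends, CartesianMonoidalCategory.lift_snd,
      CartesianMonoidalCategory.lift_snd]
    rfl

lemma endsCmp_isIso (hT : GoodFr X T) : IsIso (endsCmp T c X) := by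
  refine isIso_of_bij _ fun m => ⟨?_, ?_⟩
  · intro φ ψ h
    have h1 : (Yc.pre (RU.left (T.map (vtx (seg c) 0)) (T.map (vtx (seg c) 1))) X).app m φ =
      (Yc.pre (RU.left (T.map (vtx (seg c) 0)) (T.map (vtx (seg c) 1))) X).app m ψ :=
      congrArg Prod.fst h
    have h2 : (Yc.pre (RU.right (T.map (vtx (seg c) 0)) (T.map (vtx (seg c) 1))) X).app m φ =
      (Yc.pre (RU.right (T.map (vtx (seg c) 0)) (T.map (vtx (seg c) 1))) X).app m ψ :=
      congrArg Prod.snd h
    refine glue_ext _ _ ?_ ?_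
    · intro a k s x
      exact congrFun (congrFun (congrFun (congrFun (congrArg MpS.app h1) a) k) s) x
    · intro a k s x
      exact congrFun (congrFun (congrFun (congrFun (congrArg MpS.app h2) a) k) s) x
  · rintro ⟨φ, ψ⟩
    obtain ⟨χ, h1, h2⟩ := glue ((T.map (vtx (seg c) 0)).app m.unop)
      ((T.map (vtx (seg c) 1)).app m.unop) φ ψ
      (fun a k => inj_of_mono _ (hT.mono_vtx (seg c) 0 m.unop a) k)
      (fun a k => inj_of_mono _ (hT.mono_vtx (seg c) 1 m.unop a) k)
      (fun a k s x y hxy => by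
        exfalso
        have : (((T.map (vtx (seg c) 0)).app m.unop).app a).app k x ∈
          (Sb.range ((T.map (vtx (seg c) 0)).app m.unop) ⊓
            Sb.range ((T.map (vtx (seg c) 1)).app m.unop)).mem a k :=
            ⟨⟨x, rfl⟩, ⟨y, hxy.symm⟩⟩
        rw [hT.disj c m.unop] at this
        exact this)
    refine ⟨χ, Prod.ext ?_ ?_⟩
    · refine MpS.ext ?_
      funext a k s x
      exact h1 a k s x
    · refine MpS.ext ?_
      funext a k s x
      exact h2 a k s x

theorem kanFib_ends (D : Dep X) (hT : GoodFr X T) : KanFib (ends (Kf T X) c) := by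
  have hiso := endsCmp_isIso T c hT
  have hu := fun m a => hT.mono_vtx (seg c) 0 m a
  have hv := fun m a => hT.mono_vtx (seg c) 1 m a
  have key : KanFib (endsPre T c X) := by
    refine D.Yc_pre_kanFib _ (RU.ι_mono _ _) (ext_RU _ _ D hu hv (hT.disj c) (hT.ext _)
      (hT.ext _)) (hT.ext _) fun i => ?_
    have := hT.edge c i
    rw [ends_eq] at this
    exact lift_of_iso_right (p := endsPre T c X) (endsCmp T c X) this
  intro n i
  rw [ends_eq]
  exact lift_iso_right (endsCmp T c X) (key n i)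

end Ends

section Bin

variable (T : Fr (Wr C)) {r : ℕ} (c : Fin (r + 1) → C)

lemma bin_comm (X : SP (Wr C)) :
    Yc.pre (RU.left (T.map (initMap c)) (T.map (lastMap' c))) X ≫
      (Kf T X).map (vtx (init c) (Fin.last r)).op =
    Yc.pre (RU.right (T.map (initMap c)) (T.map (lastMap' c))) X ≫
      (Kf T X).map (vtx (seg (c (Fin.last r))) 0).op := by
  refine NatTrans.ext (funext fun m => ?_)
  refine ConcreteCategory.hom_ext _ _ fun φ => ?_
  refine MpS.ext ?_
  funext a k s x
  refine congrArg (MpS.app φ a k s) (Subtype.ext ?_)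
  have e : T.map (vtx (init c) (Fin.last r)) ≫ T.map (initMap c) =
      T.map (vtx (seg (c (Fin.last r))) 0) ≫ T.map (lastMap' c) := by
    rw [← T.map_comp, ← T.map_comp, init_last]
  exact ConcreteCategory.congr_hom (NatTrans.congr_app (NatTrans.congr_app (NatTrans.congr_app e
    m.unop) a) k) x

/-- The comparison with the fibre product. -/
noncomputable def binCmp (X : SP (Wr C)) :
    Yc (RU (T.map (initMap c)) (T.map (lastMap' c))) X ⟶
      Fp ((Kf T X).map (vtx (init c) (Fin.last r)).op)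
      ((Kf T X).map (vtx (seg (c (Fin.last r))) 0).op) :=
  Fp.lift (Yc.pre (RU.left _ _) X) (Yc.pre (RU.right _ _) X) (bin_comm T c X)

/-- The restriction along the inclusion. -/
noncomputable def binPre (X : SP (Wr C)) : (Kf T X).obj (op ⟨r + 1, c⟩) ⟶
    Yc (RU (T.map (initMap c)) (T.map (lastMap' c))) X :=
  Yc.pre (RU.ι (T.map (initMap c)) (T.map (lastMap' c))) X

lemma binMap_eq (X : SP (Wr C)) : binMap (Kf T X) c = binPre T c X ≫ binCmp T c X := rfl

lemma vtx_init : vtx (init c) (Fin.last r) ≫ initMap c =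
    vtx ⟨r + 1, c⟩ (Fin.last r).castSucc := by
  rw [vtx_comp]
  rfl

lemma vtx_last : vtx (seg (c (Fin.last r))) 0 ≫ lastMap' c =
    vtx ⟨r + 1, c⟩ (Fin.last r).castSucc := by
  rw [← init_last, vtx_init]

lemma binCmp_isIso (hT : GoodFr X T) : IsIso (binCmp T c X) := by
  refine isIso_of_bij _ fun m => ⟨?_, ?_⟩
  · intro φ ψ h
    have h1 : (Yc.pre (RU.left (T.map (initMap c)) (T.map (lastMap' c))) X).app m φ =
      (Yc.pre (RU.left (T.map (initMap c)) (T.map (lastMap' c))) X).app m ψ :=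
      congrArg (fun z => z.1.1) h
    have h2 : (Yc.pre (RU.right (T.map (initMap c)) (T.map (lastMap' c))) X).app m φ =
      (Yc.pre (RU.right (T.map (initMap c)) (T.map (lastMap' c))) X).app m ψ :=
      congrArg (fun z => z.1.2) h
    refine glue_ext _ _ ?_ ?_
    · intro a k s x
      exact congrFun (congrFun (congrFun (congrFun (congrArg MpS.app h1) a) k) s) x
    · intro a k s x
      exact congrFun (congrFun (congrFun (congrFun (congrArg MpS.app h2) a) k) s) x
  · rintro ⟨⟨φ, ψ⟩, h⟩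
    obtain ⟨χ, h1, h2⟩ := glue ((T.map (initMap c)).app m.unop)
      ((T.map (lastMap' c)).app m.unop) φ ψ
      (fun a k => inj_of_mono _ (hT.mono_init c m.unop a) k)
      (fun a k => inj_of_mono _ (hT.mono_last c m.unop a) k)
      (fun a k s x y hxy => by
        obtain ⟨w, hw⟩ := hT.inter c m.unop a k
          (show (((T.map (initMap c)).app m.unop).app a).app k x ∈
            (Sb.range ((T.map (initMap c)).app m.unop) ⊓
              Sb.range ((T.map (lastMap' c)).app m.unop)).mem a k from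
            ⟨⟨x, rfl⟩, ⟨y, hxy.symm⟩⟩)
        have ex : (((T.map (vtx (init c) (Fin.last r))).app m.unop).app a).app k w = x := by
          refine inj_of_mono _ (hT.mono_init c m.unop a) k ?_
          refine Eq.trans ?_ hw
          have e := T.map_comp (vtx (init c) (Fin.last r)) (initMap c)
          rw [vtx_init] at e
          exact (ConcreteCategory.congr_hom (NatTrans.congr_app (NatTrans.congr_app
            (NatTrans.congr_app e m.unop) a) k) w).symm
        have ey : (((T.map (vtx (seg (c (Fin.last r))) 0)).app m.unop).app a).app k w = y := by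
          refine inj_of_mono _ (hT.mono_last c m.unop a) k ?_
          refine Eq.trans ?_ (hw.trans hxy)
          have e := T.map_comp (vtx (seg (c (Fin.last r))) 0) (lastMap' c)
          rw [vtx_last] at e
          exact (ConcreteCategory.congr_hom (NatTrans.congr_app (NatTrans.congr_app
            (NatTrans.congr_app e m.unop) a) k) w).symm
        have := congrFun (congrFun (congrFun (congrFun (congrArg MpS.app h) a) k) s) w
        rw [← ex, ← ey]
        exact this)
    refine ⟨χ, Subtype.ext (Prod.ext ?_ ?_)⟩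
    · refine MpS.ext ?_
      funext a k s x
      exact h1 a k s x
    · refine MpS.ext ?_
      funext a k s x
      exact h2 a k s x

theorem hoEq_bin (D : Dep X) (hT : GoodFr X T) : HoEq (binMap (Kf T X) c) := by
  have hiso := binCmp_isIso T c hT
  have key : TrivFib (binPre T c X) := by
    refine D.Yc_pre_trivFib _ (RU.ι_mono _ _) fun m => ?_
    refine (D.loc_iff_range _ (RU.ι_mono _ _ m)).2 ?_
    rw [RU.range_ι]
    exact hT.bin c m
  have : TrivFib (binMap (Kf T X) c) := fun n => by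
    rw [binMap_eq]
    exact lift_iso_right (binCmp T c X) (key n)
  exact Pool.Agent.Helper45.FL2.TrivFib.hoEq this

end Bin

/-- Module C2 of project FL2, relative to the modules G1, G3, G4. -/
theorem Kf_good_of (D : Dep X) {T : Fr (Wr C)} (hT : GoodFr X T) :
    VFib (Kf T X) ∧ BSeg (Kf T X) :=
  ⟨⟨fun a => D.Yc_kan (hT.ext a.unop), fun c => kanFib_ends T c D hT⟩,
    fun _ c => hoEq_bin T c D hT⟩

end Main

end Pool.Agent.Helper86.FL2
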