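import Pool.Agent.Helper86.FL2.KGoodCore
import Pool.Agent.Helper45.FL2.LocAll
import Pool.Agent.Helper81.FL2.Fib
import Pool.Agent.Helper55.FL2.GPc

/-!
# Project FL2, module C2 (KGOOD): `Kf T X` is vertex-fibrant and satisfies the Segal condition
-/

open CategoryTheory MonoidalCategory Opposite

set_option autoImplicit false

namespace Pool.Agent.Helper86.FL2

open _root_.FL

/-- The results of the modules G1, G3, G4. -/
theorem dep {A : Type} [SmallCategory A] {X : SP A} (hX : InjFib X) : Dep X where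
  locT_trans := Pool.Agent.Helper45.LOC.locT_trans hX
  locT_push := Pool.Agent.Helper45.LOC.locT_push hX
  locT_comap := Pool.Agent.Helper45.LOC.locT_comap
  loc_iff_range := Pool.Agent.Helper45.LOC.loc_iff_range
  Yc_kan := Pool.Agent.Helper81.FL2.Yc_kan hX
  Yc_pre_kanFib := Pool.Agent.Helper81.FL2.Yc_pre_kanFib hX
  Yc_pre_trivFib := Pool.Agent.Helper55.FL2.Yc_pre_trivFib hX

/-- Module C2: for every good frame `T`, `Kf T X` is vertex-fibrant and Segal. -/
theorem Kf_good {C : Type} [SmallCategory C] {X : SP (Wr C)} (hX : InjFib X) {T : Fr (Wr C)}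
    (hT : GoodFr X T) : VFib (Kf T X) ∧ BSeg (Kf T X) :=
  Kf_good_of (dep hX) hT

end Pool.Agent.Helper86.FL2
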